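import Mathlib
import Pool.Agent.K6.H12.KS.Fin
import Pool.Agent.K6.H12.KS.Comm

/-!
# The arithmetic degrees of all compositions of given endomorphisms

Let `X` be a projective variety over a number field `K`, and let `f_i`, `i` in a finite set, be surjective
endomorphisms of `X` which are jointly amplified. We compare the arithmetic and the dynamical degrees
for all compositions `g = f_{i_n} ∘ ⋯ ∘ f_{i_1}` at once. Fix a surjective morphism `π : W → X` (for
example the identity) and a finite morphism `φ : W → ℙ^m`, `m = dim W`. We consider the points `w` of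
`W` whose degree over `φ(w)` is almost as large as possible, for instance those for which the fibre of
`φ` through `w` is irreducible over the field of definition of `φ(w)`. We show that for all these points
with a sufficiently large height of `φ(w)` the height of `g(π(w))` is the product of `h(φ(w))` and of the
degree of `g`, up to constants which do not depend on `g`. So there is one finite set, for the points of
bounded degree over `K`, outside of which the arithmetic degree of `π(w)` is equal to the first
dynamical degree for all compositions `g` (infinitely many endomorphisms). Without a restriction on the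
point `w` we show that in every fibre of `φ`, over a point of height at least `C`, at least a share `κ` of the
points has this property for a given `g`; `κ` and `C` do not depend on `g`.

For one endomorphism these are the results `MP_f4cece_nt.FinitelyManyPoints` and
`MP_c8dfda_nt.EveryFibre` of the starting files; the constants and the finite set depend on the
endomorphism there. For infinite sets of endomorphisms one needs an assumption: if `X = ℙ^1`, `f_1 = 2 x`
and `f_2 = x ^ 2`, then the point `4^(-n)` is fixed by `f_2 ∘ f_1^n`, a map of degree two.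

The definitions `Variety`, `Morphism`, `Cover`, `IsDynamicalDegree`, `IsArithmeticDegree` and
`AtLeast` are in `Pool/Agent/Q8/KS/Setting.lean` and `Share.lean` (starting files): a projective
variety is given by its points, `Pic`, `N^1`, the nef cone, the intersection form and the Weil heights,
with their standard properties. `Endo`, `word`, `Amplified` and `Pinched` are in
`Pool/Agent/K6/H12/KS/Word.lean`, `IntAmplified` in `Pool/Agent/K6/H12/KS/Comm.lean`.
-/

set_option autoImplicit false

open Filter Topology

namespace Pool.Agent.Results.MP_0e7dfd_ag.AllCompositions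

open Pool.Agent.Q8.KS
open Pool.Agent.K6.H12.KS (Endo word Amplified Pinched IntAmplified)

variable {G : Type} [Group G]

/-- The condition on the family of endomorphisms of `X`: either there are an ample class `L` and real
numbers `q > 1`, `Q < q ^ 2` such that all classes `f_i^* L - q L` and `Q L - f_i^* L` are nef; or
numerically trivial classes are zero in `Pic(X) ⊗ ℝ` (this means that `Pic^0(X)(K)` is finite, for
instance if the irregularity of `X` is zero) and there is an ample class `L` such that all classes
`f_i^* L - L` are ample; or numerically trivial classes are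
zero, each `f_i` is int-amplified (`f_i^* L_i - L_i` is ample for some ample class `L_i`), and the
pullbacks `f_i^*` commute on `N^1(X)`. -/
def Condition {X : Variety G} {ι : Type} (f : ι → Endo X) : Prop :=
  Pinched f ∨ Function.Injective X.cls ∧ (Amplified f ∨ (∀ i, IntAmplified (f i)) ∧
    ∀ i j D, (f i).ns ((f j).ns D) = (f j).ns ((f i).ns D))

/-- The degree `g^* D ⋅ D^(d-1)`, `d = dim X`, of the composition `g` of the maps in a list. -/
noncomputable def degree {X : Variety G} {ι : Type} (f : ι → Endo X) (D : X.Pic) (g : List ι) : ℝ :=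
  X.deg (X.cls D) ((word f g).ns (X.cls D))

/-- Let `X` be a projective variety over a number field `K` with absolute Galois group `G` (with
`N^1(X) ≠ 0`), let `π : W → X` be a surjective morphism, `m = dim W`, and let `H₀` be an ample class on
`W`. There is `κ > 0` such that for all finite morphisms `φ : W → ℙ^m` of degree `N` with `φ^* O(1)`
numerically a positive multiple of `H₀`, all finite families `f` of surjective endomorphisms of `X`
which satisfy the condition above and all ample classes `D` on `X` with a height `h_D` there is a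
constant `C` with the following properties, in which `g` is any composition of maps of the family
(with any number of factors) and `δ` is the first dynamical degree of `g`.

(1) If `[K(w) : K(φ(w))] > (1 - κ) N` and `h(φ(w)) ≥ C`, then for all `g` the height `h_D(g(π(w)))` is
equal to `deg(g) h(φ(w))` up to a factor in `[1 / C, C]`, and the arithmetic degree of `g` at `π(w)` is
`δ`.

(2) For all `e` the points `w` with `[K(w) : K(φ(w))] > (1 - κ) N` and `[K(φ(w)) : K] ≤ e` for which the
arithmetic degree of some `g` at `π(w)` is not `δ` form a finite set.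

(3) For every point `t` of `ℙ^m` with `h(t) ≥ C` and every `g` at least `κ N` of the `N` points `w` of the
fibre over `t`, counted with multiplicity, have the property that the arithmetic degree of `g` at
`π(w)` is `δ` and `h_D(g^k(π(w))) ≥ C⁻¹ δ^k h(t)` for all `k`. -/
theorem result (X W : Variety G) [Nontrivial X.NS] (π : Morphism W X)
    (hπ : Function.Surjective π.pt) (H₀ : W.Pic) (hH₀ : W.IsAmple H₀) :
    ∃ κ : ℝ, 0 < κ ∧ ∀ φ : Cover W, (∃ t : ℝ, 0 < t ∧ W.cls φ.H = t • W.cls H₀) →
      ∀ (ι : Type) [Finite ι] (f : ι → Endo X), Condition f →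
      ∀ (D : X.Pic) (h_D : X.Pt → ℝ), X.IsAmple D → X.IsHeight D h_D → ∃ C : ℝ, 0 < C ∧
        (∀ w : W.Pt, (1 - κ) * φ.N < φ.relDeg w → C ≤ φ.h (φ.φ w) → ∀ g : List ι,
          degree f D g * φ.h (φ.φ w) ≤ C * h_D ((word f g).pt (π.pt w)) ∧
          h_D ((word f g).pt (π.pt w)) ≤ C * (degree f D g * φ.h (φ.φ w)) ∧
          ∀ δ : ℝ, IsDynamicalDegree (word f g).toMorphism D δ →
            IsArithmeticDegree (word f g).toMorphism h_D (π.pt w) δ) ∧
        (∀ e : ℕ, {w : W.Pt | (1 - κ) * φ.N < φ.relDeg w ∧
          (MulAction.orbit G (φ.φ w)).ncard ≤ e ∧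
            ∃ (g : List ι) (δ : ℝ), IsDynamicalDegree (word f g).toMorphism D δ ∧
              ¬ IsArithmeticDegree (word f g).toMorphism h_D (π.pt w) δ}.Finite) ∧
        ∀ t : φ.P, C ≤ φ.h t → ∀ (g : List ι) (δ : ℝ),
          IsDynamicalDegree (word f g).toMorphism D δ →
            AtLeast φ t (κ * φ.N) (fun w =>
              IsArithmeticDegree (word f g).toMorphism h_D (π.pt w) δ ∧
                ∀ k : ℕ, δ ^ k * φ.h t ≤ C * h_D ((word f g).pt^[k] (π.pt w))) := by
  obtain ⟨s, η, hs, hη, hinv⟩ := exists_lift X
  obtain ⟨κ₁, hκ₁, hlarge⟩ := large_rel s η hs hη hinv π hπ hH₀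
  obtain ⟨β, hβ, hunif⟩ := upper_unif s η hη π hπ hH₀
  refine ⟨min κ₁ (2 * β)⁻¹, lt_min hκ₁ (by positivity), ?_⟩
  intro φ hφ ι _ f hf D h_D hD hh
  have hN : (0 : ℝ) < φ.N := by exact_mod_cast φ.N_pos
  obtain ⟨L, q, B, hE⟩ : ∃ L q B, Pool.Agent.K6.H12.KS.Err f η h_D L q B := by
    rcases hf with hf | ⟨hX, hf⟩
    · exact Pool.Agent.K6.H12.KS.err_pinched f hf s η hs hη hD hh
    · refine Pool.Agent.K6.H12.KS.err_inj f hX ?_ s η hs hη hD h_D
      rcases hf with hf | ⟨hf, hc⟩
      · exact hf
      · exact Pool.Agent.K6.H12.KS.amplified_of_comm f ⟨_, hD⟩ hf hc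
  obtain ⟨C₁, hC₁, h1⟩ := hlarge φ hφ
  obtain ⟨C₂, hC₂, h2⟩ := hE.two_sided π hπ φ hs hη hD hh (b := 1 / 4) (by norm_num)
  obtain ⟨C₃, hup⟩ := hunif φ hφ
  obtain ⟨C₄, hC₄, h4⟩ := hE.fibre π hπ φ hs hη hD hh hβ hup
  obtain ⟨a, ha, hab⟩ := hE.deg_lower π hπ φ hD
  obtain ⟨C, hC⟩ : ∃ C : ℝ, C = 1 + C₁ + C₂ + C₄ + 1 / a := ⟨_, rfl⟩
  have ha' : 0 < 1 / a := by positivity
  have hC0 : 0 < C := by rw [hC]; positivity
  have hone : ∀ w : W.Pt, (1 - min κ₁ (2 * β)⁻¹) * φ.N < φ.relDeg w → C ≤ φ.h (φ.φ w) →
      ∀ g : List ι, degree f D g * φ.h (φ.φ w) ≤ C * h_D ((word f g).pt (π.pt w)) ∧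
        h_D ((word f g).pt (π.pt w)) ≤ C * (degree f D g * φ.h (φ.φ w)) ∧
          ∀ δ : ℝ, IsDynamicalDegree (word f g).toMorphism D δ →
            IsArithmeticDegree (word f g).toMorphism h_D (π.pt w) δ := by
    intro w hw hhw
    obtain ⟨x, hx⟩ : ∃ x, x = φ.h (φ.φ w) := ⟨_, rfl⟩
    have hx1 : C ≤ x := by rw [hx]; exact hhw
    have hx0 : 0 < x := by linarith
    have hrel : (1 - κ₁) * φ.N < φ.relDeg w := by
      refine lt_of_le_of_lt (mul_le_mul_of_nonneg_right ?_ hN.le) hw
      linarith [min_le_left κ₁ (2 * β)⁻¹]
    have h5 := h1 w hrel (by linarith)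
    have h6 : ∀ g : List ι, Pool.Agent.K6.H12.KS.dg f D g * φ.h (φ.φ w) ≤
        C₂ * h_D ((word f g).pt (π.pt w)) ∧ h_D ((word f g).pt (π.pt w)) ≤
          C₂ * (Pool.Agent.K6.H12.KS.dg f D g * φ.h (φ.φ w)) := by
      refine h2 w (by linarith) fun E hE => ?_
      refine le_trans (le_of_eq ?_) (h5 E hE)
      unfold Pool.Agent.K6.H12.KS.co
      ring
    have hdg : ∀ g : List ι, a ≤ Pool.Agent.K6.H12.KS.dg f D g := hab
    have hpos : ∀ g : List ι, 0 < h_D ((word f g).pt (π.pt w)) := by
      intro g
      have h7 := (h6 g).1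
      rw [← hx] at h7
      have h8 : 0 < Pool.Agent.K6.H12.KS.dg f D g * x := mul_pos (by linarith [hdg g]) hx0
      exact pos_of_mul_pos_right (lt_of_lt_of_le h8 h7) hC₂.le
    intro g
    refine ⟨(h6 g).1.trans (mul_le_mul_of_nonneg_right (by linarith) (hpos g).le),
      (h6 g).2.trans (mul_le_mul_of_nonneg_right (by linarith) ?_), fun δ hδ => ?_⟩
    · rw [← hx]
      exact mul_nonneg (by linarith [hdg g]) hx0.le
    · refine Pool.Agent.K6.H12.KS.arith_of_two π (C := C) (x := x) hC0 hx0
        (fun v => ha.le.trans (hdg v)) (fun v => ?_) (fun v => ?_) hδ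
      · rw [hx]
        exact (h6 v).1.trans (mul_le_mul_of_nonneg_right (by linarith) (hpos v).le)
      · have h7 := (h6 v).2
        rw [← hx] at h7
        have h8 : 0 ≤ Pool.Agent.K6.H12.KS.dg f D v * x := mul_nonneg (by linarith [hdg v]) hx0.le
        refine max_le ?_ (h7.trans (mul_le_mul_of_nonneg_right (by linarith) h8))
        have h9 : a * x ≤ Pool.Agent.K6.H12.KS.dg f D v * x :=
          mul_le_mul_of_nonneg_right (hdg v) hx0.le
        have h10 : 1 ≤ a * x := by
          have h11 : 1 / a ≤ x := by linarith
          rwa [div_le_iff₀' ha] at h11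
        have h11 : 1 ≤ Pool.Agent.K6.H12.KS.dg f D v * x := h10.trans h9
        have h12 : 1 ≤ C := by linarith
        nlinarith
  refine ⟨C, hC0, hone, fun e => ?_, fun t ht g δ hδ => ?_⟩
  · refine (northcott_max φ e C).subset ?_
    rintro w ⟨hw1, hw2, g, δ, hw3, hw4⟩
    refine ⟨hw2, ?_⟩
    by_contra hlt
    exact hw4 ((hone w hw1 (not_le.1 hlt).le g).2.2 δ hw3)
  · obtain ⟨S, hS, hSP, hp⟩ := h4 t (by linarith) g δ hδ
    refine ⟨S, hS, fun w hw => ⟨(hSP w hw).1, fun k => ?_⟩, le_trans ?_ hp⟩
    · have h5 := (hSP w hw).2 k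
      have hδ1 : 1 ≤ δ := hE.one_le π hπ φ hD hδ
      have ht0 : 0 < φ.h t := by linarith
      have h6 : 0 < h_D ((word f g).pt^[k] (π.pt w)) := by
        have h7 : 0 < δ ^ k * φ.h t := by
          have : 0 < δ ^ k := pow_pos (by linarith) k
          positivity
        exact pos_of_mul_pos_right (lt_of_lt_of_le h7 h5) hC₄.le
      exact h5.trans (mul_le_mul_of_nonneg_right (by linarith) h6.le)
    · exact mul_le_mul_of_nonneg_right (min_le_right _ _) hN.le

end Pool.Agent.Results.MP_0e7dfd_ag.AllCompositions
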