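import Mathlib
import Pool.Agent.K6.H8.KS.Main

/-!
MP_0e7dfd_ag, Q1: lower bounds for the heights of the points of a Zariski-dense orbit of an
endomorphism of a projective variety.
-/

set_option autoImplicit false

namespace Pool.Agent.Results.MP_0e7dfd_ag.LinearGrowth

open MvPolynomial

variable {K : Type} [Field K] {N : ℕ}

/-- The ideal `I` is homogeneous. It defines the closed subset `X` of the projective space of
dimension `N` over `K`. -/
def Homogeneous (I : Ideal (MvPolynomial (Fin (N + 1)) K)) : Prop :=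
  ∀ H ∈ I, ∀ e, homogeneousComponent e H ∈ I

/-- The point with the homogeneous coordinates `x` is a `K`-rational point of `X`. -/
def IsPoint (I : Ideal (MvPolynomial (Fin (N + 1)) K)) (x : Fin (N + 1) → K) : Prop :=
  x ≠ 0 ∧ ∀ H ∈ I, eval x H = 0

/-- The finitely many tuples `G 0, G 1, …` of `M + 1` forms (the forms of one tuple have one
degree) are local expressions of a morphism from `X` to the projective space of dimension `M`: any
two of them are proportional on `X`, and at every point of `X` over the algebraic closure of `K`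
one of them is defined. -/
structure Morphism (I : Ideal (MvPolynomial (Fin (N + 1)) K)) {r M : ℕ}
    (G : Fin r → Fin (M + 1) → MvPolynomial (Fin (N + 1)) K) : Prop where
  forms : ∀ i, ∃ d, ∀ a, (G i a).IsHomogeneous d
  agree : ∀ i j a b, G i a * G j b - G i b * G j a ∈ I
  defined : ∀ y : Fin (N + 1) → AlgebraicClosure K, y ≠ 0 → (∀ H ∈ I, aeval y H = 0) →
    ∃ i a, aeval y (G i a) ≠ 0

/-- The morphism `G` maps the point `x` to the point `y`. -/
def Maps {r M : ℕ} (G : Fin r → Fin (M + 1) → MvPolynomial (Fin (N + 1)) K)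
    (x : Fin (N + 1) → K) (y : Fin (M + 1) → K) : Prop :=
  y ≠ 0 ∧ ∀ i a b, eval x (G i a) * y b = eval x (G i b) * y a

/-- The set `B` of natural numbers has positive upper density. -/
def PositiveUpperDensity (B : Set ℕ) : Prop :=
  ∃ δ : ℝ, 0 < δ ∧ ∀ n0 : ℕ, ∃ n, n0 ≤ n ∧ δ * n < (B ∩ Set.Iio n).ncard

/-- Let `X` be a closed subset of a projective space over a number field `K`, let `f` be a morphism
from `X` to `X`, and let `x 0`, `x 1 = f (x 0)`, `x 2 = f (x 1)`, … be an orbit of `f` in `X(K)`.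
Let `h` be the logarithmic height on the points of projective space over `K`.

(1) Let `X` be irreducible, of dimension at least two (the homogeneous coordinate ring of `X` has
transcendence degree at least three over `K`), and let the orbit be Zariski-dense in `X`. Then
there is `c > 0` such that `h (x n) ≥ c n` for a set of `n` of positive upper density.

(2) Let `φ` be a morphism from `X` to a projective space. Then either there is `c > 0` such that
`h (φ (x n)) ≥ c n` for a set of `n` of positive upper density, or `h (φ (x n)) ≤ C log n` for all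
`n ≥ 2`, with a constant `C`, and the points `φ (x n)` lie on a closed subset of dimension at most
one (any three homogeneous coordinates satisfy a nontrivial homogeneous equation at all the
points). -/
theorem result (K : Type) [Field K] [NumberField K] {N : ℕ}
    (I : Ideal (MvPolynomial (Fin (N + 1)) K)) (hI : Homogeneous I) {r : ℕ}
    (G : Fin r → Fin (N + 1) → MvPolynomial (Fin (N + 1)) K) (hG : Morphism I G)
    (x : ℕ → Fin (N + 1) → K) (hx : ∀ n, IsPoint I (x n)) (horb : ∀ n, Maps G (x n) (x (n + 1))) :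
    (I.IsPrime → 3 ≤ Algebra.trdeg K (MvPolynomial (Fin (N + 1)) K ⧸ I) →
      (∀ (e : ℕ) (H : MvPolynomial (Fin (N + 1)) K), H.IsHomogeneous e →
        (∀ n, eval (x n) H = 0) → H ∈ I) →
      ∃ c : ℝ, 0 < c ∧ PositiveUpperDensity {n | c * n ≤ Height.logHeight (x n)}) ∧
    ∀ (M s : ℕ) (φ : Fin s → Fin (M + 1) → MvPolynomial (Fin (N + 1)) K), Morphism I φ →
      ∀ y : ℕ → Fin (M + 1) → K, (∀ n, Maps φ (x n) (y n)) →
      (∃ c : ℝ, 0 < c ∧ PositiveUpperDensity {n | c * n ≤ Height.logHeight (y n)}) ∨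
      ((∃ C : ℝ, ∀ n : ℕ, 2 ≤ n → Height.logHeight (y n) ≤ C * Real.log n) ∧
        ∀ i : Fin 3 → Fin (M + 1), ∃ (e : ℕ) (H : MvPolynomial (Fin 3) K), H.IsHomogeneous e ∧
          H ≠ 0 ∧ ∀ n, eval (fun j => y n (i j)) H = 0) := by
  classical
  have hpud : ∀ B : Set ℕ, ¬ Pool.Agent.K6.H8.KS.DZ B → PositiveUpperDensity B := by
    intro B hB
    unfold Pool.Agent.K6.H8.KS.DZ at hB
    push Not at hB
    obtain ⟨ε, hε, h⟩ := hB
    refine ⟨ε, hε, fun n0 => ?_⟩
    obtain ⟨n, hn, F, hF, hFB, hlt⟩ := h n0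
    refine ⟨n, hn, hlt.trans_le ?_⟩
    have h1 : (F : Set ℕ) ⊆ B ∩ Set.Iio n := fun b hb =>
      ⟨hFB b hb, Finset.mem_range.1 (hF hb)⟩
    have h2 := Set.ncard_le_ncard h1 ((Set.finite_Iio n).subset Set.inter_subset_right)
    rw [Set.ncard_coe_finset] at h2
    exact_mod_cast h2
  choose d hd using hG.forms
  have part2 : ∀ (M s : ℕ) (φ : Fin s → Fin (M + 1) → MvPolynomial (Fin (N + 1)) K),
      Morphism I φ → ∀ y : ℕ → Fin (M + 1) → K, (∀ n, Maps φ (x n) (y n)) →
      (∃ c : ℝ, 0 < c ∧ PositiveUpperDensity {n | c * n ≤ Height.logHeight (y n)}) ∨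
      ((∃ C : ℝ, ∀ n : ℕ, 2 ≤ n → Height.logHeight (y n) ≤ C * Real.log n) ∧
        ∀ i : Fin 3 → Fin (M + 1), ∃ (e : ℕ) (H : MvPolynomial (Fin 3) K), H.IsHomogeneous e ∧
          H ≠ 0 ∧ ∀ n, eval (fun j => y n (i j)) H = 0) := by
    intro M s φ hφ y hy
    choose e he using hφ.forms
    by_cases h : ∃ c : ℝ, 0 < c ∧ PositiveUpperDensity {n | c * n ≤ Height.logHeight (y n)}
    · exact Or.inl h
    · right
      push Not at h
      refine Pool.Agent.K6.H8.KS.dichotomy hI hd hG.defined he hφ.defined (fun n => (hx n).1)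
        (fun n => (hx n).2) (fun n => (horb n).2) (fun n => (hy n).1) (fun n => (hy n).2)
        fun c hc => ?_
      by_contra hcon
      exact h c hc (hpud _ hcon)
  refine ⟨fun hprime hdim hdense => ?_, part2⟩
  have hid : Morphism I (fun (_ : Fin 1) (a : Fin (N + 1)) => (X a : MvPolynomial (Fin (N + 1)) K)) := by
    refine ⟨fun _ => ⟨1, fun a => isHomogeneous_X K a⟩, fun i j a b => ?_, fun y hy0 _ => ?_⟩
    · have h1 : (X a * X b - X b * X a : MvPolynomial (Fin (N + 1)) K) = 0 := by ring
      rw [h1]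
      exact I.zero_mem
    · obtain ⟨a, ha⟩ := Function.ne_iff.1 hy0
      exact ⟨0, a, by rw [aeval_X]; exact ha⟩
  rcases part2 N 1 _ hid x (fun n => ⟨(hx n).1, fun i a b => by
    rw [eval_X, eval_X, mul_comm]⟩) with h | ⟨-, h⟩
  · exact h
  · exfalso
    obtain ⟨i, hi⟩ := Pool.Agent.K6.H8.KS.exists_coords hprime hdim
    obtain ⟨e, H, hH, hH0, hHn⟩ := h i
    refine hH0 (hi H (hdense e _ (hH.rename_isHomogeneous) fun n => ?_))
    rw [eval_rename]
    exact hHn n

end Pool.Agent.Results.MP_0e7dfd_ag.LinearGrowth
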