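import Mathlib
import Pool.Agent.K6.H12.UR.FamMain
import Pool.Agent.K6.H12.UR.Nt
import Pool.Agent.K6.H12.UR.Bz
import Pool.Agent.K6.H12.UR.Sm
import Pool.Agent.K6.H12.UR.Gc
import Pool.Agent.K6.H12.UR.Dc
import Pool.Agent.K6.H12.UR.Sz
import Pool.Agent.K6.H12.UR.Ld

/-!
# The canonical heights and the arithmetic degrees of almost all members of a family

Let `X_t` be a family of projective varieties over the projective space `ℙ^(n-1)` over `ℚ`, with
endomorphisms `f_t`, a class `D_t` in `Pic(X_t) ⊗ ℝ` with `f_t^* D_t = d D_t`, `d > 1` (there is such a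
class with `d = d_1(f_t)`, for instance a nef class, by the theorem of Perron and Frobenius, if the
irregularity is zero), and a rational section `x_t`. The canonical height `γ` of the generic point over
the function field of the parameter space is the limit of the numbers `b_k / d^k`, where `b_k` is the
degree of the pullback of the class `D` to the parameter space by the section `f_t^k(x_t)`.

We show that for 100% of the parameters `t`, ordered by height, with a power saving in the exceptional
set, the canonical height of `x_t` is `(γ + o(1)) h(t)`; and if `γ ≠ 0` and `d` is the first dynamical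
degree, then the arithmetic degree of `f_t` at `x_t` is equal to the first dynamical degree, so the
equality of the conjecture holds for 100% of the members of the family. For one-parameter families
(`n = 2`) the limit formula is a theorem of Call and Silverman, with all parameters of large height.
For `n ≥ 3` there are in general infinitely many exceptions outside of every proper closed subset,
since the classes which are pulled back are not big: the heights of `f_t^k(x_t)` are smaller than
expected if the coordinates have a large common divisor. For a constant family and a dominant section see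
`UnirationalPoints`.

Proof. Let `𝒜 = O(1)` and `𝒟` be the classes on the total space `𝒳 ⊆ ℙ^(M-1)`. For fixed `k` the
point `x_k(t) = f_t^k(x_t)` has the coordinates `F_k(t)`, coprime forms of degree `e_k`. For almost
all `t` the number `max |F_k,i(t)|` is at least `B^(e_k - κ)` and the greatest common divisor at most
`B^κ` (`Pool/Agent/K6/H12/UR/Nt.lean`), so `h_𝒜(x_k(t)) ≥ (e_k - κ) h(t) - O(1)`. The heights for the
nef classes `C 𝒜 ± 𝒟` are at most their degrees times `h(t)`; hence `h_D(x_k(t))` is
`b_k h(t)` up to `C κ h(t) + O(1)`. The canonical height of `x_k(t)` is `d^k` times the canonical height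
of `x_t`, and differs from `h_D(x_k(t))` by `O(1 + h(t))`, with a constant which does not depend
on `k`. Take `k` large, and then `κ` small.

The definitions `Variety`, `Morphism`, `IsDynamicalDegree`, `IsArithmeticDegree` are in
`Pool/Agent/Q8/KS/Setting.lean` (starting files): a projective variety is given by its points, `Pic`,
`N^1`, the nef cone, the intersection form and the Weil heights, with their standard properties.
`Family` is in `Pool/Agent/K6/H12/UR/Fam.lean`, `Family.Ok`, `Family.orbit`, `Family.IsCanonical`,
`Family.IsGeneric` and `Small` in `FamMain.lean`, `ht` (the height of a rational point) in `Param.lean`,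
`Coprime` in `Def.lean`, `gc` (the greatest common divisor of the coordinates) in `Final.lean`.

The pieces `Bz.lean` (helper96), `Gc.lean` (helper31), `Sm.lean`, `Dc.lean`, `Sz.lean`, `Ld.lean`
(helper53) of the count were written by other seats, for `UnirationalPoints`.
-/

set_option autoImplicit false

namespace Pool.Agent.Results.MP_0e7dfd_ag.MembersOfFamilies

open Pool.Agent.Q8.KS
open Pool.Agent.K6.H12.UR

/-- The canonical height `γ` of the generic point exists. **(1)** For every `κ > 0` there are `δ > 0`,
`C` and a set `T` with at most `C B ^ (n - δ)` elements in `[-B, B]^n` for all `B ≥ 1`, such that for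
all `t` outside `T` the family is defined at `t`, the canonical height of `x_t` exists and is
`γ h(t)` up to `κ h(t) + C`, and for all `k` the height of `f_t^k(x_t)` for `D` is `d^k` times the
canonical height of `x_t` up to `C (1 + h(t))`. **(2)** Suppose that `γ ≠ 0` and that `d` is the first dynamical degree of
`f_t` for all `t` at which the family is defined. Then there are `δ > 0`, `C` and such a set `T`, such
that for all `t` outside `T` with `h(t) ≥ C` the arithmetic degree of `f_t` at `x_t` is equal to the
first dynamical degree of `f_t`; there are only finitely many primitive `t` outside `T` for which this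
is not so; and at most `C B ^ (n - δ)` primitive `t` in `[-B, B]^n` for which the family is not defined
or this is not so. -/
theorem result {G : Type} [Group G] (𝓕 : Family G) :
    ∃ γ : ℝ, 𝓕.IsGeneric γ ∧
      (∀ κ : ℝ, 0 < κ → ∃ (δ C : ℝ) (T : Set (Fin 𝓕.n → ℤ)), 0 < δ ∧ 0 < C ∧ Small 𝓕.n δ C T ∧
        ∀ t, t ∉ T → 𝓕.Ok t ∧ ∃ y, 𝓕.IsCanonical t y ∧ |y - γ * ht t| ≤ κ * ht t + C ∧
          ∀ k, |y * 𝓕.d ^ k - 𝓕.hD t (𝓕.orbit t k)| ≤ C * (1 + ht t)) ∧
      (γ ≠ 0 → (∀ t, 𝓕.Ok t → IsDynamicalDegree (𝓕.f t) (𝓕.A t) 𝓕.d) →
        ∃ (δ C : ℝ) (T : Set (Fin 𝓕.n → ℤ)), 0 < δ ∧ 0 < C ∧ Small 𝓕.n δ C T ∧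
          (∀ t, t ∉ T → 𝓕.Ok t) ∧
          (∀ t, t ∉ T → C ≤ ht t → IsArithmeticDegree (𝓕.f t) (𝓕.hA t) (𝓕.pt t) 𝓕.d) ∧
          {t : Fin 𝓕.n → ℤ | gc t = 1 ∧ t ∉ T ∧
            ¬ IsArithmeticDegree (𝓕.f t) (𝓕.hA t) (𝓕.pt t) 𝓕.d}.Finite ∧
          Small 𝓕.n δ C {t | gc t = 1 ∧
            (¬ 𝓕.Ok t ∨ ¬ IsArithmeticDegree (𝓕.f t) (𝓕.hA t) (𝓕.pt t) 𝓕.d)}) := by
  have hNT := nt_of t_BZ t_SM t_GC t_DC t_PB t_SZ t_LD
  obtain ⟨γ, hγ, h⟩ := 𝓕.limit hNT t_SZ
  refine ⟨γ, hγ, fun κ hκ => ?_, fun h0 hdyn => 𝓕.ksc hNT t_SZ hγ h0 hdyn⟩
  obtain ⟨δ, C, T, h1, -, h2, h3, h4⟩ := h κ hκ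
  refine ⟨δ, C, T, h1, h2, h3, fun t ht' => ?_⟩
  exact h4 t ht'

end Pool.Agent.Results.MP_0e7dfd_ag.MembersOfFamilies
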