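import Mathlib
import Pool.Agent.K6.H12.UR.Final
import Pool.Agent.K6.H12.UR.Nt
import Pool.Agent.K6.H12.UR.Bz
import Pool.Agent.K6.H12.UR.Sm
import Pool.Agent.K6.H12.UR.Gc
import Pool.Agent.K6.H12.UR.Dc
import Pool.Agent.K6.H12.UR.Sz
import Pool.Agent.K6.H12.UR.Ld

/-!
# The arithmetic degrees of almost all rational points of unirational varieties

Let `X` be a unirational variety over `ℚ` and `ψ : ℙ^(n-1) ⇢ X` a dominant rational map over `ℚ`. We
show that for 100% of the rational points `t` of the projective space, ordered by height, the arithmetic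
degree at `ψ(t)` is equal to the first dynamical degree, for every endomorphism `f` of `X`. More
precisely there is one exceptional set `T` of integral vectors, which does not depend on `f` and has
`O(B ^ (n - δ))` elements in the box `[-B, B]^n`, such that for every endomorphism `f` with
`d_1(f) > 1` equality holds at `ψ(t)` for all but finitely many primitive `t` outside `T`, with uniform
two-sided bounds for the heights of all points of the orbit. For the finite families of surjective
endomorphisms of `AllCompositions` (for instance commuting int-amplified endomorphisms of a variety with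
`Pic(X) ⊗ ℝ = N^1(X)`) there is one finite set of exceptional `t` for all compositions.

Proof. Let `ψ = (F_1 : ⋯ : F_M)` with coprime forms of degree `e`. The height of `ψ(t)` is
`log (max |F_i(t)| / gcd(F_i(t)))`. For almost all `t` in the box the maximum is at least `B ^ (e - κ)`
and the greatest common divisor is at most `B ^ κ` (`Pool/Agent/K6/H12/UR/Nt.lean`: for a form which does
not vanish at `v` the restrictions to the lines of direction `v` have a fixed leading coefficient, and
`e + 1` values in a short interval can not be divisible by a large `d`; the common divisor divides a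
resultant, which has few divisors). At these points almost no height is lost, and so by the negativity
lemma (the property `height_nef`) the heights of `ψ(t)` for all nef classes `D` are at least a positive
constant times `‖D‖ h(t)` (`Param.lean`). This is enough for all endomorphisms (`Pts.lean`).

The definitions `Variety`, `Morphism`, `IsDynamicalDegree`, `IsArithmeticDegree` are in
`Pool/Agent/Q8/KS/Setting.lean` (starting files): a projective variety is given by its points, `Pic`,
`N^1`, the nef cone, the intersection form and the Weil heights, with their standard properties.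
`Endo`, `word`, `Amplified` and `Pinched` are in `Pool/Agent/K6/H12/KS/Word.lean`, `IntAmplified` in
`Comm.lean`, `ht`, `Unirational` in `Pool/Agent/K6/H12/UR/Param.lean`, `Coprime` in `Def.lean`, `gc` (the
greatest common divisor of the coordinates) and `Cond` in `Final.lean`.

The pieces `Bz.lean` (helper96), `Gc.lean` (helper31), `Sm.lean`, `Dc.lean`, `Sz.lean`, `Ld.lean`
(helper53) of the count were written by other seats.
-/

set_option autoImplicit false

namespace Pool.Agent.Results.MP_0e7dfd_ag.UnirationalPoints

open Pool.Agent.Q8.KS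
open Pool.Agent.K6.H12.KS (Endo word)
open Pool.Agent.K6.H12.UR

variable {G : Type} [Group G]

/-- `y` is equal to `m h` up to a factor in `[1 / C, C]`. -/
def Near (C m h y : ℝ) : Prop := m * h ≤ C * y ∧ y ≤ C * (m * h)

/-- The property of one endomorphism `f` with first dynamical degree `d`, for the exceptional set `T`
and the exponent `δ`: there is `C` such that for `t` not in `T` with `h(t) ≥ C` the arithmetic degree of
`f` at `ψ(t)` is `d`, and for all `k` the height `h_A(f^k(ψ(t)))` is equal to
`((f^k)^* A ⋅ A^(dim X - 1)) h(t)` up to a factor in `[1 / C, C]`; there are only finitely many primitive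
`t` outside `T` for which the arithmetic degree of `f` at `ψ(t)` is not `d`; and at most `C B ^ (n - δ)`
primitive `t` in `[-B, B]^n` have `F(t) = 0` or arithmetic degree not `d`. -/
def One {X : Variety G} {A : X.Pic} (ψ : Unirational X A) (h_A : X.Pt → ℝ)
    (T : Set (Fin ψ.n → ℤ)) (δ : ℝ) (f : Morphism X X) (d : ℝ) : Prop :=
  ∃ C : ℝ, 0 < C ∧
    (∀ t : Fin ψ.n → ℤ, t ∉ T → C ≤ ht t → IsArithmeticDegree f h_A (ψ.pt t) d ∧
      ∀ k : ℕ, Near C (X.deg (X.cls A) ((f.ns ^ k) (X.cls A))) (ht t) (h_A (f.pt^[k] (ψ.pt t)))) ∧
    {t : Fin ψ.n → ℤ | gc t = 1 ∧ t ∉ T ∧ ¬ IsArithmeticDegree f h_A (ψ.pt t) d}.Finite ∧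
    ∀ B : ℕ, 1 ≤ B → (({t : Fin ψ.n → ℤ | (∀ i, |t i| ≤ B) ∧ gc t = 1 ∧
      (ψ.val t = 0 ∨ ¬ IsArithmeticDegree f h_A (ψ.pt t) d)}.ncard : ℕ) : ℝ) ≤
        C * (B : ℝ) ^ ((ψ.n : ℝ) - δ)

/-- The property of a family `f` of surjective endomorphisms, for the exceptional set `T`: there is `C`
such that for `t` not in `T` with `h(t) ≥ C` and ALL compositions `g` of maps of the family the
arithmetic degree of `g` at `ψ(t)` is the first dynamical degree of `g`, and the height `h_A(g(ψ(t)))`
is equal to `(g^* A ⋅ A^(dim X - 1)) h(t)` up to a factor in `[1 / C, C]`; there are only finitely many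
primitive `t` outside `T` for which the arithmetic degree at `ψ(t)` is not equal to the first dynamical
degree for some composition. -/
def All {X : Variety G} {A : X.Pic} (ψ : Unirational X A) (h_A : X.Pt → ℝ)
    (T : Set (Fin ψ.n → ℤ)) {ι : Type} (f : ι → Endo X) : Prop :=
  ∃ C : ℝ, 0 < C ∧
    (∀ t : Fin ψ.n → ℤ, t ∉ T → C ≤ ht t → ∀ g : List ι,
      Near C (X.deg (X.cls A) ((word f g).ns (X.cls A))) (ht t) (h_A ((word f g).pt (ψ.pt t))) ∧
      ∀ d : ℝ, IsDynamicalDegree (word f g).toMorphism A d →
        IsArithmeticDegree (word f g).toMorphism h_A (ψ.pt t) d) ∧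
    {t : Fin ψ.n → ℤ | gc t = 1 ∧ t ∉ T ∧ ∃ (g : List ι) (d : ℝ),
      IsDynamicalDegree (word f g).toMorphism A d ∧
        ¬ IsArithmeticDegree (word f g).toMorphism h_A (ψ.pt t) d}.Finite

/-- Let `X` be a projective variety over `ℚ` with absolute Galois group `G` (with `N^1(X) ≠ 0`), let
`A = O(1)` for an embedding of `X` with a height `h_A`, and let `ψ = (F_1 : ⋯ : F_M)` be a dominant
rational map from `ℙ^(n-1)`, `n ≥ 2`, to `X`. There are `δ > 0` and a set `T` of integral vectors with
at most `C₀ B ^ (n - δ)` elements in `[-B, B]^n` for all `B`, which contains the `t` with `F(t) = 0`,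
such that `One` holds for every endomorphism `f` of `X` with first dynamical degree `d > 1` and `All`
holds for every finite family of surjective endomorphisms of `X` with the condition `Cond`. -/
theorem result (X : Variety G) [Nontrivial X.NS] (A : X.Pic) (hA : X.IsAmple A)
    (h_A : X.Pt → ℝ) (hh : X.IsHeight A h_A) (ψ : Unirational X A) :
    ∃ (δ C₀ : ℝ) (T : Set (Fin ψ.n → ℤ)), 0 < δ ∧ 0 < C₀ ∧
      (∀ B : ℕ, 1 ≤ B → (({t : Fin ψ.n → ℤ | (∀ i, |t i| ≤ B) ∧ t ∈ T}.ncard : ℕ) : ℝ) ≤
        C₀ * (B : ℝ) ^ ((ψ.n : ℝ) - δ)) ∧
      (∀ t : Fin ψ.n → ℤ, ψ.val t = 0 → t ∈ T) ∧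
      (∀ (f : Morphism X X) (d : ℝ), 1 < d → IsDynamicalDegree f A d → One ψ h_A T δ f d) ∧
      ∀ (ι : Type) [Finite ι] (f : ι → Endo X), Cond f → All ψ h_A T f :=
  main (nt_of t_BZ t_SM t_GC t_DC t_PB t_SZ t_LD) hA ψ h_A hh

end Pool.Agent.Results.MP_0e7dfd_ag.UnirationalPoints
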